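import Pool.Agent.R267.NUQglc

set_option autoImplicit false

open Filter Topology
open scoped ENNReal

namespace Pool.Agent.Results.MP_142f15_an.NoUniformQGLC

variable {𝕜 : Type} [RCLike 𝕜] {X : Type} [NormedAddCommGroup X] [NormedSpace 𝕜 X]

/-- `(x n)` is a basis in the sense of the problem file, `xs` being the coordinate functionals. -/
def IsBasis (x : ℕ → X) (xs : ℕ → X →L[𝕜] 𝕜) : Prop :=
  (∃ B : ℝ, ∀ n, ‖x n‖ ≤ B) ∧
  (∃ B : ℝ, ∀ n, ‖xs n‖ ≤ B) ∧
  (∀ m n : ℕ, xs m (x n) = if m = n then 1 else 0) ∧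
  (∀ f : X, f ∈ closure ((Submodule.span 𝕜 (Set.range x) : Submodule 𝕜 X) : Set X))

/-- near unconditionality -/
def NearlyUnconditional (x : ℕ → X) (xs : ℕ → X →L[𝕜] 𝕜) : Prop :=
  ∀ a : ℝ, 0 < a → a ≤ 1 → ∃ C : ℝ, ∀ f : X, (∀ n, ‖xs n f‖ ≤ 1) →
    ∀ A : Finset ℕ, (∀ n ∈ A, a ≤ ‖xs n f‖) → ‖∑ n ∈ A, xs n f • x n‖ ≤ C * ‖f‖

/-- `N` is an equivalent norm on `X` -/
def EquivalentNorm (N : Seminorm 𝕜 X) : Prop :=
  ∃ a b : ℝ, 0 < a ∧ ∀ f : X, a * ‖f‖ ≤ N f ∧ N f ≤ b * ‖f‖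

/-- the basis is `L`-QGLC with respect to the norm `N` -/
def QGLC (L : ℝ) (N : Seminorm 𝕜 X) (x : ℕ → X) (xs : ℕ → X →L[𝕜] 𝕜) : Prop :=
  ∀ (A : Finset ℕ) (ε : ℕ → 𝕜), (∀ n ∈ A, ‖ε n‖ = 1) →
    ∀ f : X, (∀ n, ‖xs n f‖ ≤ 1) → (∀ n ∈ A, xs n f = 0) →
      N (∑ n ∈ A, ε n • x n) ≤ L * N (∑ n ∈ A, ε n • x n + f)

open Pool.Agent.R267 Pool.Agent.R267.NU

/-- growth rates and lengths of the components -/
def gg (c : ℕ) : ℕ := (Nat.unpair c).1 + 4

/-- lengths of the components -/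
def jj (c : ℕ) : ℕ := (Nat.unpair c).2

/-- the parameters: only the components of growth `G` are sheared -/
noncomputable def par (G : ℕ) : Par where
  g := gg
  J := jj
  s c := if gg c = G then 1 / 2 else 0
  hg c := by unfold gg; omega
  hs0 c := by split_ifs <;> norm_num
  hs c := by split_ifs <;> norm_num

/-- For both scalar fields there is one Banach space `X` such that for every constant `C` some
nearly unconditional basis of `X` is not `C`-QGLC with respect to any equivalent norm on `X`. -/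
theorem result : ∀ (𝕜 : Type) [RCLike 𝕜],
    ∃ (X : Type) (_ : NormedAddCommGroup X) (_ : NormedSpace 𝕜 X) (_ : CompleteSpace X),
      ∀ C : ℝ, ∃ (x : ℕ → X) (xs : ℕ → X →L[𝕜] 𝕜), IsBasis x xs ∧ NearlyUnconditional x xs ∧
        ∀ N : Seminorm 𝕜 X, EquivalentNorm N → ¬ QGLC C N x xs := by
  intro 𝕜 _
  have hc : ∀ c, CompleteSpace (VV 𝕜 (gg c) (jj c)) := fun c => FiniteDimensional.complete 𝕜 _
  refine ⟨lp (fun c => VV 𝕜 (gg c) (jj c)) 1, inferInstance, inferInstance, inferInstance,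
    fun C => ?_⟩
  set L : ℝ := max C 1 with hL
  have hL1 : 1 ≤ L := le_max_right _ _
  obtain ⟨G0, hG0⟩ := exists_nat_gt (2 * (1 + L))
  set G : ℕ := G0 + 4 with hGdef
  have hG : 2 * (1 + L) < G := by
    rw [hGdef]
    push_cast
    linarith
  refine ⟨bx (par G), fun n => (bf (par G) n).mkContinuous 2 (norm_bf (par G) n),
    ⟨⟨2, norm_bx (par G)⟩, ⟨2, fun n => ?_⟩, fun m n => ?_, fun f => ?_⟩, ?_, ?_⟩
  · exact LinearMap.mkContinuous_norm_le _ (by norm_num) _
  · exact bf_bx (par G) m n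
  · exact dense_bx (par G) f
  · intro a ha _
    apply nearly_unc (par G) _ a ha
    apply unu_of (par G) G
    intro c
    by_cases h : gg c = G
    · right
      exact ⟨by change (if gg c = G then (1 / 2 : ℝ) else 0) = 1 / 2; rw [if_pos h], h⟩
    · left
      change (if gg c = G then (1 / 2 : ℝ) else 0) = 0
      rw [if_neg h]
  · intro N hN hQ
    refine not_qglc (par G) N hN L (by linarith) G hG ?_ ?_
    · intro J
      refine ⟨Nat.pair G0 J, ?_, ?_, ?_⟩
      · change (Nat.unpair (Nat.pair G0 J)).1 + 4 = G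
        rw [Nat.unpair_pair]
      · change (Nat.unpair (Nat.pair G0 J)).2 = J
        rw [Nat.unpair_pair]
      · change (if gg (Nat.pair G0 J) = G then (1 / 2 : ℝ) else 0) = 1 / 2
        rw [if_pos]
        unfold gg
        rw [Nat.unpair_pair]
    · intro A ε hε f hf hA
      have h := hQ A ε hε f (fun n => hf n) (fun n hn => hA n hn)
      refine h.trans ?_
      exact mul_le_mul_of_nonneg_right (le_max_left _ _) (apply_nonneg N _)

end Pool.Agent.Results.MP_142f15_an.NoUniformQGLC
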